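import Pool.Agent.W4helper48.JN.Stm2
import Pool.Agent.W4helper65.JN.Low

set_option autoImplicit false

/-!
# Project JN, piece NEX: coordinates of a polytopal graph
-/

namespace Pool.Agent.W2helper92.JN

open Set Pool.Agent.W4helper48.JN Pool.Agent.W4helper65.JN

theorem lin_rep {d : ℕ} (g : EuclideanSpace ℝ (Fin d) →ₗ[ℝ] ℝ) (x : EuclideanSpace ℝ (Fin d)) :
    g x = ∑ k, g (EuclideanSpace.single k 1) * x k := by
  have hdec : x = ∑ k : Fin d, (x k) • EuclideanSpace.single k (1 : ℝ) := by
    ext j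
    simp [Pi.single_apply]
  conv_lhs => rw [hdec]
  rw [map_sum]
  exact Finset.sum_congr rfl fun k _ => by rw [map_smul, smul_eq_mul, mul_comm]

theorem af_rep {d : ℕ} (l : EuclideanSpace ℝ (Fin d) →L[ℝ] ℝ) (b : ℝ) :
    ∃ (c0 : ℝ) (c : Fin d → ℝ), ∀ x : EuclideanSpace ℝ (Fin d),
      af c0 c (fun k => x k) = l x + b := by
  refine ⟨b, fun k => l (EuclideanSpace.single k 1), fun x => ?_⟩
  have h := lin_rep l.toLinearMap x
  simp only [ContinuousLinearMap.coe_coe] at h
  unfold af
  rw [h, add_comm]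

/-- the dichotomy for a segment -/
theorem dich {E : Type} [NormedAddCommGroup E] [InnerProductSpace ℝ E] {U : Type} [Fintype U]
    (p : U → E) (u v : U) :
    IsExposed ℝ (convexHull ℝ (range p)) (segment ℝ (p u) (p v)) ∨
      ∃ (a b : ℝ) (c : U → ℝ) (w : U), w ≠ u ∧ w ≠ v ∧ (∀ x, 0 ≤ c x) ∧ 0 < c w ∧
        ∑ x, c x = a + b ∧ a • p u + b • p v = ∑ x, c x • p x := by
  classical
  by_cases hT : ∃ w, w ≠ u ∧ w ≠ v
  swap
  · left
    refine exposed_segment p u v 0 0 (by simp) (by simp) ?_
    intro w h1 h2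
    exact absurd ⟨w, h1, h2⟩ hT
  obtain ⟨w₀, hw₀⟩ := hT
  let T := {x : U // x ≠ u ∧ x ≠ v}
  let φ : (T → ℝ) →L[ℝ] E :=
    ∑ x : T, (ContinuousLinearMap.proj (R := ℝ) (φ := fun _ : T => ℝ) x).smulRight
      (p x.1 - p u)
  have hφ : ∀ c : T → ℝ, φ c = ∑ x : T, c x • (p x.1 - p u) := by
    intro c
    simp [φ]
  have hKc : IsCompact (φ '' stdSimplex ℝ T) := (isCompact_stdSimplex ℝ T).image φ.continuous
  have hKconv : Convex ℝ (φ '' stdSimplex ℝ T) := (convex_stdSimplex ℝ T).linear_image φ.toLinearMap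
  by_cases hd : Disjoint (φ '' stdSimplex ℝ T) (Submodule.span ℝ {p v - p u} : Set E)
  · left
    have hcl : IsClosed ((Submodule.span ℝ {p v - p u} : Submodule ℝ E) : Set E) :=
      Submodule.closed_of_finiteDimensional _
    obtain ⟨f, s, t, h1, hst, h2⟩ := geometric_hahn_banach_compact_closed hKconv hKc
      (Submodule.convex _) hcl hd
    have hf0 : t < 0 := by
      have := h2 0 (Submodule.zero_mem _)
      rwa [map_zero] at this
    have hfD : f (p v - p u) = 0 := by
      by_contra hne
      have h3 := h2 ((t / f (p v - p u)) • (p v - p u))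
        (Submodule.smul_mem _ _ (Submodule.mem_span_singleton_self _))
      rw [map_smul, smul_eq_mul, div_mul_cancel₀ _ hne] at h3
      exact lt_irrefl _ h3
    rw [map_sub] at hfD
    refine exposed_segment p u v (-f) (f (p u)) ?_ ?_ ?_
    · simp
    · simp only [_root_.neg_apply]
      linarith
    · intro w hwu hwv
      have h3 : p w - p u ∈ φ '' stdSimplex ℝ T := by
        refine ⟨Pi.single ⟨w, hwu, hwv⟩ 1, single_mem_stdSimplex ℝ _, ?_⟩
        rw [hφ, Finset.sum_eq_single ⟨w, hwu, hwv⟩]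
        · simp
        · intro y _ hy
          rw [Pi.single_eq_of_ne hy, zero_smul]
        · intro hy
          exact absurd (Finset.mem_univ _) hy
      have h4 := h1 _ h3
      rw [map_sub] at h4
      simp only [_root_.neg_apply]
      linarith
  · right
    rw [Set.not_disjoint_iff] at hd
    obtain ⟨y, ⟨c, hc, rfl⟩, hy⟩ := hd
    obtain ⟨t, ht⟩ := Submodule.mem_span_singleton.1 hy
    rw [hφ] at ht
    obtain ⟨hc0, hc1⟩ := hc
    have hex : ∃ w : T, 0 < c w := by
      by_contra hn
      push Not at hn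
      have : ∑ x, c x ≤ 0 := Finset.sum_nonpos fun x _ => hn x
      rw [hc1] at this
      linarith
    obtain ⟨w, hw⟩ := hex
    have hsum : ∀ (F : Type) [AddCommMonoid F] (g : U → F),
        ∑ x : U, (if h : x ≠ u ∧ x ≠ v then g x else 0) = ∑ x : T, g x.1 := by
      intro F _ g
      rw [← Finset.sum_filter_add_sum_filter_not Finset.univ (fun x => x ≠ u ∧ x ≠ v)]
      have e2 : ∑ x ∈ Finset.univ.filter (fun x => ¬ (x ≠ u ∧ x ≠ v)),
          (if h : x ≠ u ∧ x ≠ v then g x else 0) = 0 := by
        refine Finset.sum_eq_zero fun x hx => ?_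
        rw [dif_neg (Finset.mem_filter.1 hx).2]
      rw [e2, add_zero]
      have e1 : ∑ x ∈ Finset.univ.filter (fun x => x ≠ u ∧ x ≠ v),
          (if h : x ≠ u ∧ x ≠ v then g x else 0) =
          ∑ x ∈ Finset.univ.filter (fun x => x ≠ u ∧ x ≠ v), g x := by
        refine Finset.sum_congr rfl fun x hx => ?_
        rw [dif_pos (Finset.mem_filter.1 hx).2]
      rw [e1]
      exact Finset.sum_subtype _ (fun x => by simp) g
    refine ⟨1 - t, t, fun x => if h : x ≠ u ∧ x ≠ v then c ⟨x, h⟩ else 0, w.1, w.2.1, w.2.2,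
      ?_, ?_, ?_, ?_⟩
    · intro x
      simp only
      split_ifs
      · exact hc0 _
      · exact le_rfl
    · simp only
      rw [dif_pos w.2]
      exact hw
    · have := hsum ℝ (fun x => if h : x ≠ u ∧ x ≠ v then c ⟨x, h⟩ else 0)
      have e : ∀ x : U, (if h : x ≠ u ∧ x ≠ v then
          (if h : x ≠ u ∧ x ≠ v then c ⟨x, h⟩ else 0) else 0) =
          (if h : x ≠ u ∧ x ≠ v then c ⟨x, h⟩ else 0) := by
        intro x
        split_ifs <;> rfl
      simp only [e] at this
      rw [this]
      have e3 : ∀ x : T, (if h : x.1 ≠ u ∧ x.1 ≠ v then c ⟨x.1, h⟩ else 0) = c x := by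
        intro x
        rw [dif_pos x.2]
      rw [Finset.sum_congr rfl fun x _ => e3 x, hc1]
      ring
    · have := hsum E (fun x => (if h : x ≠ u ∧ x ≠ v then c ⟨x, h⟩ else 0) • p x)
      have e : ∀ x : U, (if h : x ≠ u ∧ x ≠ v then
          (if h : x ≠ u ∧ x ≠ v then c ⟨x, h⟩ else 0) • p x else 0) =
          (if h : x ≠ u ∧ x ≠ v then c ⟨x, h⟩ else 0) • p x := by
        intro x
        split_ifs
        · rfl
        · rw [zero_smul]
      simp only [e] at this
      rw [this]
      have e3 : ∀ x : T, (if h : x.1 ≠ u ∧ x.1 ≠ v then c ⟨x.1, h⟩ else 0) • p x.1 =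
          c x • p x.1 := by
        intro x
        rw [dif_pos x.2]
      rw [Finset.sum_congr rfl fun x _ => e3 x]
      have h5 : ∑ x : T, c x • (p x.1 - p u) = ∑ x : T, c x • p x.1 - p u := by
        simp only [smul_sub]
        rw [Finset.sum_sub_distrib, ← Finset.sum_smul, hc1, one_smul]
      rw [h5] at ht
      have h6 : ∑ x : T, c x • p x.1 = t • (p v - p u) + p u := by
        rw [ht]
        abel
      rw [h6, smul_sub, sub_smul, one_smul]
      abel

/-- PIECE NEX -/
theorem p_nex : NexStm := by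
  intro U _ H d hH
  classical
  obtain ⟨P, q, h⟩ := hH
  have hP := hull_eq h
  refine ⟨fun u k => q u k, ?_, ?_, ?_, ?_⟩
  · intro c0 c hc
    have h1 := lin_zero' h (fl c).toLinearMap (-c0) (fun u => by
      have h2 := hc u
      have h3 := fl_apply c (fun k => q u k) c0
      rw [h2] at h3
      have h4 : (WithLp.toLp 2 fun k => (q u) k) = q u := rfl
      rw [h4] at h3
      show fl c (q u) = -c0
      linarith)
    funext k
    have h2 := congrArg (fun g => g (EuclideanSpace.single k (1 : ℝ))) h1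
    simp only [LinearMap.zero_apply, ContinuousLinearMap.coe_coe] at h2
    have h3 : fl c (EuclideanSpace.single k (1 : ℝ)) = c k := by
      simp [fl, Pi.single_apply]
    rw [h3] at h2
    exact h2
  · intro u
    have hx : q u ∈ P.extremePoints ℝ := by
      rw [← h.2.2.2.1]
      exact mem_range_self u
    have h1 := ((convex_of h).mem_extremePoints_iff_mem_sdiff_convexHull_sdiff.1 hx).2
    have h2 : q u ∉ convexHull ℝ (q '' {w | w ≠ u}) := by
      intro h3
      apply h1
      refine convexHull_mono ?_ h3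
      rintro _ ⟨w, hw, rfl⟩
      refine ⟨mem_of h w, ?_⟩
      intro h4
      exact hw (h.2.2.1 h4)
    have hfin : (q '' {w | w ≠ u}).Finite := (Set.toFinite _).image q
    obtain ⟨f, s, hs1, hs2⟩ := geometric_hahn_banach_point_closed (convex_convexHull ℝ _)
      (hfin.isClosed_convexHull ℝ) h2
    obtain ⟨c0, c, hc⟩ := af_rep f (-(f (q u)))
    refine ⟨c0, c, ?_, ?_⟩
    · rw [hc]
      ring
    · intro w hw
      rw [hc]
      have := hs2 (q w) (subset_convexHull ℝ _ ⟨w, hw, rfl⟩)
      linarith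
  · intro u v huv
    obtain ⟨l, hl0, hl⟩ := edge_fun h huv
    obtain ⟨c0, c, hc⟩ := af_rep (-l) (l (q u))
    refine ⟨c0, c, ?_, ?_, ?_⟩
    · rw [hc]
      simp
    · rw [hc]
      rw [map_sub] at hl0
      simp only [_root_.neg_apply]
      linarith
    · intro w hwu hwv
      rw [hc]
      have := hl w hwu hwv
      rw [map_sub] at this
      simp only [_root_.neg_apply]
      linarith
  · intro u v huv hadj
    rcases dich q u v with h1 | ⟨a, b, c, w, h1, h2, h3, h4, h5, h6⟩
    · exfalso
      rw [← hP] at h1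
      exact hadj ((h.2.2.2.2 u v).2 ⟨huv, h1⟩)
    · refine ⟨a, b, c, w, h1, h2, h3, h4, h5, ?_⟩
      intro k
      have h7 := congrArg (fun x : EuclideanSpace ℝ (Fin d) => x k) h6
      simpa [Finset.sum_apply] using h7

end Pool.Agent.W2helper92.JN
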